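import Pool.Agent.Q35.GM.Stm

/-!
Project GM (helper35), job GM-PSZ (helper14): truncation of the product of the local distances.
-/

set_option autoImplicit false

namespace Pool.Agent.Q14.GM

open Finset Function NumberField
open Pool.Agent.Q35.GM
open Pool.Agent.Q35.MM (dg)
open Pool.Agent.Q35.EOW (nv)

namespace PSZa

variable {K : Type} [Field K] [NumberField K]

/-- the support of the maximum norms is finite -/
theorem supp {ι : Type} [Finite ι] {x : ι → K} (hx : x ≠ 0) :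
    (Function.mulSupport fun v : FinitePlace K => ⨆ i, v (x i)).Finite := by
  have h1 : (⋃ i ∈ {i | x i ≠ 0}, Function.mulSupport fun v : FinitePlace K => v (x i)).Finite := by
    refine Set.Finite.biUnion (Set.toFinite _) fun i hi => ?_
    exact FinitePlace.hasFiniteMulSupport hi
  refine h1.subset fun v hv => ?_
  by_contra hcon
  have hc : ∀ i, x i ≠ 0 → v (x i) = 1 := by
    intro i hi
    by_contra h
    exact hcon (Set.mem_iUnion₂.2 ⟨i, hi, h⟩)
  apply hv
  obtain ⟨i, hi⟩ := Function.ne_iff.1 hx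
  have : Nonempty ι := ⟨i⟩
  apply le_antisymm
  · apply ciSup_le
    intro j
    by_cases hj : x j = 0
    · rw [hj, map_zero]
      exact zero_le_one
    · exact (hc j hj).le
  · exact Finite.le_ciSup_of_le i (hc i hi).ge

/-- the maximum norm is attained -/
theorem att {ι : Type} [Finite ι] {x : ι → K} (hx : x ≠ 0) (v : K → ℝ) (hv : ∀ a, a ≠ 0 → 0 < v a) (h0 : v 0 = 0) :
    ∃ i, x i ≠ 0 ∧ (⨆ i, v (x i)) = v (x i) := by
  obtain ⟨i, hi⟩ := Function.ne_iff.1 hx
  have : Nonempty ι := ⟨i⟩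
  obtain ⟨j, hj⟩ := exists_eq_ciSup_of_finite (f := fun i => v (x i))
  refine ⟨j, ?_, hj.symm⟩
  intro h
  have h1 : v (x i) ≤ ⨆ i, v (x i) := Finite.le_ciSup_of_le i le_rfl
  have h2 := hv (x i) hi
  rw [← hj] at h1
  simp only [h, h0] at h1
  linarith

theorem vpow (v : FinitePlace K) (a : K) (ha : a ≠ 0) :
    ∃ k : ℤ, v a = (Ideal.absNorm v.maximalIdeal.asIdeal : ℝ) ^ k := by
  rw [← FinitePlace.norm_embedding_eq, FinitePlace.norm_embedding',
    WithZeroMulInt.toNNReal_neg_apply _ ((v.maximalIdeal.valuation K).ne_zero_iff.2 ha)]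
  refine ⟨(WithZero.unzero ((v.maximalIdeal.valuation K).ne_zero_iff.2 ha)).toAdd, ?_⟩
  push_cast
  rfl

theorem ne_of_plu {m : ℕ} {x y : Fin m → K} (h : plu x y ≠ 0) : x ≠ 0 ∧ y ≠ 0 := by
  constructor
  · rintro rfl
    apply h
    funext p
    simp [plu]
  · rintro rfl
    apply h
    funext p
    simp [plu]

theorem fin_pos (v : FinitePlace K) : ∀ a : K, a ≠ 0 → 0 < v a := fun _ ha => FinitePlace.pos_iff.2 ha

theorem inf_pos (w : InfinitePlace K) : ∀ a : K, a ≠ 0 → 0 < w a := fun _ ha => InfinitePlace.pos_iff.2 ha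

theorem le_nv {m : ℕ} (v : K → ℝ) (x : Fin m → K) (a : Fin m) : v (x a) ≤ nv v x := by
  have : Nonempty (Fin m) := ⟨a⟩
  exact Finite.le_ciSup_of_le a le_rfl

theorem nv_pos {m : ℕ} {x : Fin m → K} (hx : x ≠ 0) (v : K → ℝ) (hv : ∀ a, a ≠ 0 → 0 < v a) (h0 : v 0 = 0) :
    0 < nv v x := by
  obtain ⟨i, hi, h⟩ := att hx v hv h0
  unfold nv
  rw [h]
  exact hv _ hi

theorem nvp_pos {m : ℕ} {x y : Fin m → K} (hx : plu x y ≠ 0) (v : K → ℝ) (hv : ∀ a, a ≠ 0 → 0 < v a) (h0 : v 0 = 0) :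
    0 < nvp v x y := by
  obtain ⟨i, hi, h⟩ := att hx v hv h0
  unfold nvp
  rw [h]
  exact hv _ hi

/-- the local inequality, finite places -/
theorem fin_le {m : ℕ} {x y : Fin m → K} (h : plu x y ≠ 0) (v : FinitePlace K) :
    nvp v x y / (nv v x * nv v y) ≤ 1 := by
  obtain ⟨hx, hy⟩ := ne_of_plu h
  have h1 := nv_pos hx v (fin_pos v) (map_zero v)
  have h2 := nv_pos hy v (fin_pos v) (map_zero v)
  rw [div_le_one (mul_pos h1 h2)]
  obtain ⟨p, hp, he⟩ := att h v (fin_pos v) (map_zero v)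
  unfold nvp
  rw [he]
  unfold plu
  rw [sub_eq_add_neg]
  refine (FinitePlace.add_le v _ _).trans ?_
  rw [map_neg_eq_map]
  simp only [map_mul]
  apply max_le
  · exact mul_le_mul (le_nv v x _) (le_nv v y _) (apply_nonneg v _) h1.le
  · exact mul_le_mul (le_nv v x _) (le_nv v y _) (apply_nonneg v _) h1.le

/-- the local inequality, infinite places -/
theorem inf_le {m : ℕ} {x y : Fin m → K} (h : plu x y ≠ 0) (w : InfinitePlace K) :
    nvp w x y / (nv w x * nv w y) ≤ 2 := by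
  obtain ⟨hx, hy⟩ := ne_of_plu h
  have h1 := nv_pos hx w (inf_pos w) (map_zero w)
  have h2 := nv_pos hy w (inf_pos w) (map_zero w)
  rw [div_le_iff₀ (mul_pos h1 h2)]
  obtain ⟨p, hp, he⟩ := att h w (inf_pos w) (map_zero w)
  unfold nvp
  rw [he]
  unfold plu
  rw [sub_eq_add_neg]
  have h3 : w (x p.1 * y p.2 + -(x p.2 * y p.1)) ≤ w (x p.1 * y p.2) + w (-(x p.2 * y p.1)) := w.1.add_le _ _
  refine h3.trans ?_
  have h4 : w (-(x p.2 * y p.1)) = w (x p.2 * y p.1) := w.1.map_neg _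
  rw [h4]
  simp only [map_mul]
  have h5 : w (x p.1) * w (y p.2) ≤ nv w x * nv w y :=
    mul_le_mul (le_nv w x _) (le_nv w y _) (apply_nonneg w _) h1.le
  have h6 : w (x p.2) * w (y p.1) ≤ nv w x * nv w y :=
    mul_le_mul (le_nv w x _) (le_nv w y _) (apply_nonneg w _) h1.le
  linarith

/-- the local ratio is an integral power of the norm -/
theorem ratio_pow {m : ℕ} {x y : Fin m → K} (h : plu x y ≠ 0) (v : FinitePlace K) :
    ∃ k : ℤ, nvp v x y / (nv v x * nv v y) = (Ideal.absNorm v.maximalIdeal.asIdeal : ℝ) ^ k := by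
  obtain ⟨hx, hy⟩ := ne_of_plu h
  obtain ⟨i, hi, h1⟩ := att h v (fin_pos v) (map_zero v)
  obtain ⟨j, hj, h2⟩ := att hx v (fin_pos v) (map_zero v)
  obtain ⟨l, hl, h3⟩ := att hy v (fin_pos v) (map_zero v)
  obtain ⟨a, ha⟩ := vpow v _ hi
  obtain ⟨b, hb⟩ := vpow v _ hj
  obtain ⟨c, hc⟩ := vpow v _ hl
  have hN : (Ideal.absNorm v.maximalIdeal.asIdeal : ℝ) ≠ 0 := by
    have := HeightOneSpectrum.one_lt_absNorm v.maximalIdeal
    exact_mod_cast (by omega : Ideal.absNorm v.maximalIdeal.asIdeal ≠ 0)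
  refine ⟨a - (b + c), ?_⟩
  unfold nvp nv
  rw [h1, h2, h3, ha, hb, hc, ← zpow_add₀ hN, ← zpow_sub₀ hN]

theorem ratio_lt {m : ℕ} {x y : Fin m → K} (h : plu x y ≠ 0) (v : FinitePlace K)
    (hlt : nvp v x y / (nv v x * nv v y) ≠ 1) :
    nvp v x y / (nv v x * nv v y) ≤ 1 / (Ideal.absNorm v.maximalIdeal.asIdeal : ℝ) := by
  have h1 := fin_le h v
  obtain ⟨k, hk⟩ := ratio_pow h v
  have hN : (1 : ℝ) < (Ideal.absNorm v.maximalIdeal.asIdeal : ℝ) := by
    exact_mod_cast HeightOneSpectrum.one_lt_absNorm v.maximalIdeal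
  rw [hk] at h1 hlt ⊢
  have hk0 : k < 0 := by
    rcases lt_trichotomy k 0 with h2 | h2 | h2
    · exact h2
    · exact absurd (by rw [h2, zpow_zero]) hlt
    · exact absurd (one_lt_zpow₀ hN h2) (not_lt.2 h1)
  have h3 : (Ideal.absNorm v.maximalIdeal.asIdeal : ℝ) ^ k ≤ (Ideal.absNorm v.maximalIdeal.asIdeal : ℝ) ^ (-1 : ℤ) :=
    zpow_le_zpow_right₀ hN.le (by omega)
  rwa [zpow_neg_one, ← one_div] at h3

/-- the product formula for `psi` -/
theorem psi_eq {m : ℕ} {x y : Fin m → K} (h : plu x y ≠ 0) :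
    psi x y = (∏ w : InfinitePlace K, (nvp w x y / (nv w x * nv w y)) ^ w.mult) *
      ∏ᶠ v : FinitePlace K, nvp v x y / (nv v x * nv v y) := by
  obtain ⟨hx, hy⟩ := ne_of_plu h
  have s1 := supp h
  have s2 := supp hx
  have s3 := supp hy
  unfold psi
  rw [NumberField.mulHeight_eq h, NumberField.mulHeight_eq hx, NumberField.mulHeight_eq hy]
  unfold nvp nv
  have h1 : ∏ᶠ v : FinitePlace K, (⨆ p, v (plu x y p)) / ((⨆ a, v (x a)) * ⨆ a, v (y a)) =
      (∏ᶠ v : FinitePlace K, ⨆ p, v (plu x y p)) /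
        ((∏ᶠ v : FinitePlace K, ⨆ a, v (x a)) * ∏ᶠ v : FinitePlace K, ⨆ a, v (y a)) := by
    have h2 := Function.HasFiniteMulSupport.mul s2 s3
    rw [← finprod_mul_distrib s2 s3]
    exact finprod_div_distrib s1 h2
  rw [h1]
  simp only [div_pow, mul_pow]
  rw [prod_div_distrib, prod_mul_distrib]
  rw [div_mul_div_comm]
  congr 1
  ring

end PSZa

open PSZa

/-- **PSZ.** -/
theorem psz : S_PSZ := by
  classical
  intro K _ _ z hz
  have hfin : {v : FinitePlace K | Ideal.absNorm v.maximalIdeal.asIdeal ≤ 2 ^ dg K * z}.Finite := by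
    have h1 := Ideal.finite_setOfPred_absNorm_le (S := 𝓞 K) (2 ^ dg K * z)
    refine Set.Finite.preimage (f := fun v : FinitePlace K => v.maximalIdeal.asIdeal) ?_ h1
    intro a _ b _ hab
    exact FinitePlace.maximalIdeal_injective (IsDedekindDomain.HeightOneSpectrum.ext hab)
  refine ⟨hfin.toFinset, ?_⟩
  intro S hS m x y h
  obtain ⟨hx, hy⟩ := ne_of_plu h
  obtain ⟨r, hr⟩ : ∃ r : FinitePlace K → ℝ, r = fun v : FinitePlace K => nvp v x y / (nv v x * nv v y) := ⟨_, rfl⟩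
  obtain ⟨I, hI⟩ : ∃ I : ℝ, I = ∏ w : InfinitePlace K, (nvp w x y / (nv w x * nv w y)) ^ w.mult := ⟨_, rfl⟩
  have hr1 : ∀ v, r v ≤ 1 := fun v => by rw [hr]; exact fin_le h v
  have hr0 : ∀ v, 0 < r v := fun v => by
    rw [hr]
    exact div_pos (nvp_pos h v (fin_pos v) (map_zero v))
      (mul_pos (nv_pos hx v (fin_pos v) (map_zero v)) (nv_pos hy v (fin_pos v) (map_zero v)))
  have hw0 : ∀ w : InfinitePlace K, 0 < nvp w x y / (nv w x * nv w y) := fun w =>
    div_pos (nvp_pos h w (inf_pos w) (map_zero w))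
      (mul_pos (nv_pos hx w (inf_pos w) (map_zero w)) (nv_pos hy w (inf_pos w) (map_zero w)))
  have hI0 : 0 < I := by
    rw [hI]
    exact prod_pos fun w _ => pow_pos (hw0 w) _
  have hI2 : I ≤ 2 ^ dg K := by
    rw [hI]
    calc ∏ w : InfinitePlace K, (nvp w x y / (nv w x * nv w y)) ^ w.mult ≤ ∏ w : InfinitePlace K, (2 : ℝ) ^ w.mult := by
          apply prod_le_prod
          · intro w _
            exact (pow_pos (hw0 w) _).le
          · intro w _
            exact pow_le_pow_left₀ (hw0 w).le (inf_le h w) _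
      _ = 2 ^ dg K := by
          rw [prod_pow_eq_pow_sum, InfinitePlace.sum_mult_eq]
  have hsup : (Function.mulSupport r).Finite := by
    have s1 := supp h
    have s2 := supp hx
    have s3 := supp hy
    refine ((s1.union s2).union s3).subset ?_
    intro v hv
    by_contra hcon
    apply hv
    rw [Set.mem_union, Set.mem_union, not_or, not_or] at hcon
    obtain ⟨⟨h1, h2⟩, h3⟩ := hcon
    rw [Function.notMem_mulSupport] at h1 h2 h3
    rw [hr]
    unfold nvp nv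
    simp only
    rw [h1, h2, h3]
    norm_num
  obtain ⟨T, hT⟩ : ∃ T : Finset (FinitePlace K), T = hsup.toFinset ∪ S := ⟨_, rfl⟩
  have hfp : ∏ᶠ v : FinitePlace K, r v = ∏ v ∈ T, r v := by
    apply finprod_eq_prod_of_mulSupport_subset
    intro v hv
    rw [hT, mem_coe, mem_union]
    exact Or.inl (hsup.mem_toFinset.2 hv)
  have hST : S ⊆ T := by rw [hT]; exact subset_union_right
  obtain ⟨Q, hQ⟩ : ∃ Q : ℝ, Q = ∏ v ∈ T \ S, r v := ⟨_, rfl⟩
  have hsplit : ∏ v ∈ T, r v = Q * ∏ v ∈ S, r v := by rw [hQ, prod_sdiff hST]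
  have hQ1 : Q ≤ 1 := by
    rw [hQ]
    exact prod_le_one (fun v _ => (hr0 v).le) fun v _ => hr1 v
  have hQ0 : 0 < Q := by
    rw [hQ]
    exact prod_pos fun v _ => hr0 v
  have hS1 : ∏ v ∈ S, r v ≤ 1 := prod_le_one (fun v _ => (hr0 v).le) fun v _ => hr1 v
  have hS0 : 0 < ∏ v ∈ S, r v := prod_pos fun v _ => hr0 v
  have hpS : psS S x y = I * ∏ v ∈ S, r v := by
    rw [hI, hr]
    rfl
  have hpsi : psi x y = psS S x y * Q := by
    rw [psi_eq h, ← hI, hpS]
    have h1 : ∏ᶠ v : FinitePlace K, nvp v x y / (nv v x * nv v y) = ∏ᶠ v : FinitePlace K, r v := by rw [hr]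
    rw [h1, hfp, hsplit]
    ring
  have hpS0 : 0 < psS S x y := by rw [hpS]; exact mul_pos hI0 hS0
  have hpS2 : psS S x y ≤ 2 ^ dg K := by
    rw [hpS]
    calc I * ∏ v ∈ S, r v ≤ I * 1 := mul_le_mul_of_nonneg_left hS1 hI0.le
      _ = I := mul_one I
      _ ≤ _ := hI2
  refine ⟨?_, ?_, hpS2, ?_⟩
  · rw [hpsi]
    exact (mul_pos hpS0 hQ0).le
  · rw [hpsi]
    exact mul_le_of_le_one_right hpS0.le hQ1
  · intro hz1
    have hall : ∀ v ∈ T \ S, r v = 1 := by
      intro v hv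
      by_contra hne
      have hv1 : r v ≤ 1 / (Ideal.absNorm v.maximalIdeal.asIdeal : ℝ) := by
        rw [hr] at hne ⊢
        exact ratio_lt h v hne
      have hvS : v ∉ S := (mem_sdiff.1 hv).2
      have hvN : 2 ^ dg K * z < Ideal.absNorm v.maximalIdeal.asIdeal := by
        by_contra hcon
        exact hvS (hS (hfin.mem_toFinset.2 (not_lt.1 hcon)))
      have hvN' : (2 : ℝ) ^ dg K * z < (Ideal.absNorm v.maximalIdeal.asIdeal : ℝ) := by exact_mod_cast hvN
      have hQv : Q ≤ r v := by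
        rw [hQ, ← mul_prod_erase _ _ hv]
        exact mul_le_of_le_one_right (hr0 v).le
          (prod_le_one (fun v _ => (hr0 v).le) fun v _ => hr1 v)
      have hz0 : (0 : ℝ) < z := by exact_mod_cast hz
      have h2p : (0 : ℝ) < 2 ^ dg K := by positivity
      have h3 : psi x y ≤ 2 ^ dg K * (1 / (Ideal.absNorm v.maximalIdeal.asIdeal : ℝ)) := by
        rw [hpsi]
        exact mul_le_mul hpS2 (hQv.trans hv1) hQ0.le h2p.le
      have h4 : 2 ^ dg K * (1 / (Ideal.absNorm v.maximalIdeal.asIdeal : ℝ)) < 1 / (z : ℝ) := by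
        have h5 : (0 : ℝ) < (Ideal.absNorm v.maximalIdeal.asIdeal : ℝ) := lt_trans (by positivity) hvN'
        rw [mul_one_div, div_lt_div_iff₀ h5 hz0]
        linarith
      linarith
    have hQe : Q = 1 := by
      rw [hQ]
      exact prod_eq_one hall
    rw [hpsi, hQe, mul_one]

end Pool.Agent.Q14.GM
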